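import Mathlib

set_option autoImplicit false

namespace Pool.Agent.Results.MP_5f2357_gt.PowerFails

universe u

/-- The principal upper set of `x` for the specialization order `x ≤ y` iff `x` lies in the
closure of the singleton of `y`. -/
def Up {X : Type u} [TopologicalSpace X] (x : X) : Set X :=
  {y | x ∈ closure ({y} : Set X)}

/-- Strong d-spaces: T0 spaces satisfying the strong d-condition. -/
def IsStrongDSpace (X : Type u) [TopologicalSpace X] : Prop :=
  T0Space X ∧
    ∀ D : Set X, D.Nonempty → DirectedOn (fun a b : X => a ∈ closure ({b} : Set X)) D →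
      ∀ (x : X) (U : Set X), IsOpen U →
        (⋂ d ∈ D, Up d) ∩ Up x ⊆ U → ∃ d ∈ D, Up d ∩ Up x ⊆ U

/-- The set of continuous maps from `X` to `Y`. With the subtype topology induced by the product
topology on `X → Y` this is the space of continuous maps with pointwise convergence. -/
abbrev Top0 (X : Type u) (Y : Type) [TopologicalSpace X] [TopologicalSpace Y] : Type u :=
  {f : X → Y // Continuous f}

/-- Points of the example. -/
inductive Pt : Type
  | e : Pt
  | b : Pt
  | a : ℕ → Pt
  | c : ℕ → Pt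
  | top : Pt

/-- The order of the example: `e` and `b` are minimal, above both of them lie the pairwise
incomparable points `a k`, above all of these lies the increasing sequence of the points `c n`,
and `top` is the largest point. -/
def le : Pt → Pt → Prop
  | Pt.e, Pt.e => True
  | Pt.e, Pt.a _ => True
  | Pt.e, Pt.c _ => True
  | Pt.b, Pt.b => True
  | Pt.b, Pt.a _ => True
  | Pt.b, Pt.c _ => True
  | Pt.a m, Pt.a n => m = n
  | Pt.a _, Pt.c _ => True
  | Pt.c m, Pt.c n => m ≤ n
  | _, Pt.top => True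
  | _, _ => False

theorem le_refl' (p : Pt) : le p p := by
  cases p <;> simp [le]

theorem le_top' (p : Pt) : le p Pt.top := by
  cases p <;> simp [le]

theorem top_le (p : Pt) (h : le Pt.top p) : p = Pt.top := by
  cases p <;> simp [le] at h ⊢

theorem le_trans' (p q r : Pt) (h : le p q) (h' : le q r) : le p r := by
  cases p <;> cases q <;> cases r <;> simp only [le] at h h' ⊢ <;> omega

theorem le_e_c (n : ℕ) : le Pt.e (Pt.c n) := by simp [le]

theorem le_b_c (n : ℕ) : le Pt.b (Pt.c n) := by simp [le]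

theorem le_a_c (k n : ℕ) : le (Pt.a k) (Pt.c n) := by simp [le]

theorem le_antisymm' (p q : Pt) (h : le p q) (h' : le q p) : p = q := by
  cases p <;> cases q <;> simp only [le] at h h' ⊢
  · rw [h]
  · rw [Nat.le_antisymm h h']

/-- The open sets of the example: the upper sets which contain some `c m` if they contain
`top`. -/
def PtOpen (U : Set Pt) : Prop :=
  (∀ p q, le p q → p ∈ U → q ∈ U) ∧ (Pt.top ∈ U → ∃ m, Pt.c m ∈ U)

instance : TopologicalSpace Pt where
  IsOpen := PtOpen
  isOpen_univ := ⟨fun _ _ _ _ => trivial, fun _ => ⟨0, trivial⟩⟩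
  isOpen_inter := by
    rintro s t ⟨h1, h2⟩ ⟨k1, k2⟩
    refine ⟨fun p q h hp => ⟨h1 p q h hp.1, k1 p q h hp.2⟩, fun h => ?_⟩
    obtain ⟨p, hp⟩ := h2 h.1
    obtain ⟨q, hq⟩ := k2 h.2
    exact ⟨max p q, h1 (Pt.c p) _ (le_max_left p q) hp, k1 (Pt.c q) _ (le_max_right p q) hq⟩
  isOpen_sUnion := by
    intro S hS
    refine ⟨?_, ?_⟩
    · rintro p q h ⟨s, hs, hp⟩
      exact ⟨s, hs, (hS s hs).1 p q h hp⟩
    · rintro ⟨s, hs, h⟩
      obtain ⟨m, hm⟩ := (hS s hs).2 h
      exact ⟨m, s, hs, hm⟩

theorem isOpen_iff (U : Set Pt) : IsOpen U ↔ PtOpen U := Iff.rfl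

theorem isOpen_upper (p : Pt) (h : p ≠ Pt.top) : IsOpen {y | le p y} := by
  rw [isOpen_iff]
  refine ⟨fun q r h1 h2 => le_trans' _ _ _ h2 h1, fun _ => ?_⟩
  cases p with
  | c k => exact ⟨k, show le (Pt.c k) (Pt.c k) from le_refl' _⟩
  | top => exact absurd rfl h
  | e => exact ⟨0, le_e_c 0⟩
  | b => exact ⟨0, le_b_c 0⟩
  | a k => exact ⟨0, le_a_c k 0⟩

theorem mem_closure_iff_le (p q : Pt) : p ∈ closure ({q} : Set Pt) ↔ le p q := by
  constructor
  · intro h
    have key : ∀ U : Set Pt, IsOpen U → p ∈ U → q ∈ U := by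
      intro U hU hp
      obtain ⟨r, hr, hr'⟩ := mem_closure_iff.1 h U hU hp
      rw [Set.mem_singleton_iff] at hr'
      rw [← hr']; exact hr
    by_cases hp : p = Pt.top
    · subst hp
      have h1 : ∀ k, le (Pt.c k) q := fun k =>
        key {y | le (Pt.c k) y} (isOpen_upper _ (by simp))
          (show le (Pt.c k) Pt.top from le_top' _)
      cases q with
      | top => exact le_refl' _
      | c k => exact absurd (h1 (k + 1)) (by simp [le])
      | e => exact absurd (h1 0) (by simp [le])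
      | b => exact absurd (h1 0) (by simp [le])
      | a k => exact absurd (h1 0) (by simp [le])
    · exact key {y | le p y} (isOpen_upper p hp) (le_refl' p)
  · intro h
    rw [mem_closure_iff]
    intro U hU hp
    exact ⟨q, hU.1 p q h hp, rfl⟩

theorem mem_Up (p q : Pt) : q ∈ Up p ↔ le p q := mem_closure_iff_le p q

theorem t0 : T0Space Pt := by
  refine ⟨fun p q h => ?_⟩
  have h1 : p ∈ closure ({q} : Set Pt) := (specializes_iff_mem_closure.1 h.symm.specializes)
  have h2 : q ∈ closure ({p} : Set Pt) := (specializes_iff_mem_closure.1 h.specializes)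
  exact le_antisymm' p q ((mem_closure_iff_le p q).1 h1) ((mem_closure_iff_le q p).1 h2)

theorem strong : IsStrongDSpace Pt := by
  refine ⟨t0, ?_⟩
  intro D hne hD x U hU hsub
  have hdir : ∀ p ∈ D, ∀ q ∈ D, ∃ r ∈ D, le p r ∧ le q r := by
    intro p hp q hq
    obtain ⟨r, hr, h1, h2⟩ := hD p hp q hq
    exact ⟨r, hr, (mem_closure_iff_le _ _).1 h1, (mem_closure_iff_le _ _).1 h2⟩
  by_cases hmax : ∃ m ∈ D, ∀ d ∈ D, le d m
  · obtain ⟨m, hm, hm'⟩ := hmax
    refine ⟨m, hm, fun y hy => hsub ⟨?_, hy.2⟩⟩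
    simp only [Set.mem_iInter]
    intro d hd
    exact (mem_Up d y).2 (le_trans' d m y (hm' d hd) ((mem_Up m y).1 hy.1))
  · -- now `D` contains `c n` for arbitrarily large `n`
    have hnotmax : ∀ p ∈ D, ∃ q, q ∈ D ∧ le p q ∧ p ≠ q := by
      intro p hp
      by_contra hcon
      push Not at hcon
      apply hmax
      refine ⟨p, hp, fun d hd => ?_⟩
      obtain ⟨r, hr, h1, h2⟩ := hdir p hp d hd
      have := hcon r hr h1
      rw [this]; exact h2
    have htop : Pt.top ∉ D := by
      intro h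
      obtain ⟨q, _, h1, h2⟩ := hnotmax _ h
      exact h2 (top_le q h1).symm
    have hca : ∀ k, Pt.a k ∈ D → ∃ n, Pt.c n ∈ D := by
      intro k hk
      obtain ⟨q, hq, h1, h2⟩ := hnotmax _ hk
      cases q with
      | c n => exact ⟨n, hq⟩
      | top => exact absurd hq htop
      | a m => exact absurd (congrArg Pt.a h1) h2
      | e => exact absurd h1 (by simp [le])
      | b => exact absurd h1 (by simp [le])
    have hc : ∃ n, Pt.c n ∈ D := by
      obtain ⟨p, hp⟩ := hne
      cases p with
      | c n => exact ⟨n, hp⟩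
      | top => exact absurd hp htop
      | a k => exact hca k hp
      | e =>
        obtain ⟨q, hq, h1, h2⟩ := hnotmax _ hp
        cases q with
        | c n => exact ⟨n, hq⟩
        | top => exact absurd hq htop
        | a m => exact hca m hq
        | e => exact absurd rfl h2
        | b => exact absurd h1 (by simp [le])
      | b =>
        obtain ⟨q, hq, h1, h2⟩ := hnotmax _ hp
        cases q with
        | c n => exact ⟨n, hq⟩
        | top => exact absurd hq htop
        | a m => exact hca m hq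
        | b => exact absurd rfl h2
        | e => exact absurd h1 (by simp [le])
    have hunb : ∀ m : ℕ, ∃ n, m ≤ n ∧ Pt.c n ∈ D := by
      intro m
      induction m with
      | zero =>
        obtain ⟨n, hn⟩ := hc
        exact ⟨n, Nat.zero_le _, hn⟩
      | succ m ih =>
        obtain ⟨n, hmn, hn⟩ := ih
        obtain ⟨q, hq, h1, h2⟩ := hnotmax _ hn
        cases q with
        | c k =>
          have h3 : n ≤ k := h1
          have h4 : n ≠ k := fun h => h2 (by rw [h])
          exact ⟨k, by omega, hq⟩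
        | top => exact absurd hq htop
        | a m => exact absurd h1 (by simp [le])
        | e => exact absurd h1 (by simp [le])
        | b => exact absurd h1 (by simp [le])
    have htU : Pt.top ∈ U := by
      apply hsub
      refine ⟨?_, (mem_Up _ _).2 (le_top' _)⟩
      simp only [Set.mem_iInter]
      exact fun d _ => (mem_Up _ _).2 (le_top' _)
    obtain ⟨m, hm⟩ := hU.2 htU
    obtain ⟨n, hmn, hn⟩ := hunb m
    exact ⟨Pt.c n, hn, fun y hy => hU.1 (Pt.c m) y
      (le_trans' (Pt.c m) (Pt.c n) y hmn ((mem_Up _ _).1 hy.1)) hm⟩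

instance : Countable Pt := by
  let f : Pt → ℕ ⊕ ℕ := fun p => match p with
    | Pt.e => Sum.inl 0
    | Pt.b => Sum.inl 1
    | Pt.top => Sum.inl 2
    | Pt.a k => Sum.inl (k + 3)
    | Pt.c k => Sum.inr k
  refine Function.Injective.countable (f := f) ?_
  intro p q h
  cases p <;> cases q <;> simp [f] at h ⊢ <;> omega

section

variable {X : Type u} [TopologicalSpace X]

theorem top0_closure (f g : Top0 X Pt) :
    f ∈ closure ({g} : Set (Top0 X Pt)) ↔ ∀ i, le (f.1 i) (g.1 i) := by
  rw [← specializes_iff_mem_closure, subtype_specializes_iff, specializes_pi]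
  simp only [specializes_iff_mem_closure, mem_closure_iff_le]

open Classical in
/-- The map with value `q` on `V` and value `p ≤ q` off `V`. -/
noncomputable def mk (V : Set X) (hV : IsOpen V) (p q : Pt) (h : le p q) : Top0 X Pt :=
  ⟨fun x => if x ∈ V then q else p, by
    refine ⟨fun W hW => ?_⟩
    by_cases hp : p ∈ W
    · have hq : q ∈ W := hW.1 p q h hp
      have h1 : (fun x => if x ∈ V then q else p) ⁻¹' W = Set.univ := by
        ext x
        by_cases hx : x ∈ V <;> simp [hx, hp, hq]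
      rw [h1]
      exact isOpen_univ
    · by_cases hq : q ∈ W
      · have h1 : (fun x => if x ∈ V then q else p) ⁻¹' W = V := by
          ext x
          by_cases hx : x ∈ V <;> simp [hx, hp, hq]
        rw [h1]
        exact hV
      · have h1 : (fun x => if x ∈ V then q else p) ⁻¹' W = ∅ := by
          ext x
          by_cases hx : x ∈ V <;> simp [hx, hp, hq]
        rw [h1]
        exact isOpen_empty⟩

theorem mk_mem (V : Set X) (hV : IsOpen V) (p q : Pt) (h : le p q) (x : X) (hx : x ∈ V) :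
    (mk V hV p q h).1 x = q := if_pos hx

theorem mk_notMem (V : Set X) (hV : IsOpen V) (p q : Pt) (h : le p q) (x : X) (hx : x ∉ V) :
    (mk V hV p q h).1 x = p := if_neg hx

theorem mk_le_mk (V : Set X) (hV : IsOpen V) (p q p' q' : Pt) (h : le p q) (h' : le p' q')
    (h1 : le p p') (h2 : le q q') : mk V hV p q h ∈ closure ({mk V hV p' q' h'} : Set _) := by
  rw [top0_closure]
  intro x
  by_cases hx : x ∈ V
  · rw [mk_mem V hV p q h x hx, mk_mem V hV p' q' h' x hx]
    exact h2
  · rw [mk_notMem V hV p q h x hx, mk_notMem V hV p' q' h' x hx]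
    exact h1

theorem not_strong [T0Space X] [Nontrivial X] : ¬ IsStrongDSpace (Top0 X Pt) := by
  rintro ⟨-, hS⟩
  -- an open set separating two points
  obtain ⟨V, hV, x₁, x₀, hx₁, hx₀⟩ : ∃ V : Set X, IsOpen V ∧ ∃ x₁ x₀, x₁ ∈ V ∧ x₀ ∉ V := by
    obtain ⟨x, y, hxy⟩ := exists_pair_ne X
    obtain ⟨V, hV, h⟩ := exists_isOpen_xor_mem hxy
    rcases h with ⟨h1, h2⟩ | ⟨h1, h2⟩
    · exact ⟨V, hV, x, y, h1, h2⟩
    · exact ⟨V, hV, y, x, h1, h2⟩
  let C : Set Pt := {y | le (Pt.c 0) y}
  have hC : IsOpen C := isOpen_upper _ (by simp)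
  let A : ℕ → Set Pt := fun k => {y | le (Pt.a k) y}
  have hA : ∀ k, IsOpen (A k) := fun k => isOpen_upper _ (by simp)
  let L : ℕ → Set Pt := fun k => {y | le (Pt.c k) y}
  have hL : ∀ k, IsOpen (L k) := fun k => isOpen_upper _ (by simp)
  let ev : X → Top0 X Pt → Pt := fun x f => f.1 x
  have hev : ∀ x, Continuous (ev x) := fun x =>
    (continuous_apply x).comp continuous_subtype_val
  let U : Set (Top0 X Pt) := ev x₀ ⁻¹' C ∪ ⋃ k, (ev x₀ ⁻¹' A k ∩ ev x₁ ⁻¹' L k)
  have hU : IsOpen U := (hC.preimage (hev x₀)).union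
    (isOpen_iUnion fun k => ((hA k).preimage (hev x₀)).inter ((hL k).preimage (hev x₁)))
  let f : ℕ → Top0 X Pt := fun n => mk V hV Pt.e (Pt.c n) (le_e_c n)
  obtain ⟨d, ⟨n, rfl⟩, hd⟩ := hS (Set.range f) ⟨f 0, 0, rfl⟩ (by
      rintro _ ⟨m, rfl⟩ _ ⟨n, rfl⟩
      exact ⟨f (max m n), ⟨max m n, rfl⟩,
        mk_le_mk V hV _ _ _ _ _ _ (le_refl' _) (show m ≤ max m n from le_max_left m n),
        mk_le_mk V hV _ _ _ _ _ _ (le_refl' _) (show n ≤ max m n from le_max_right m n)⟩)
    (mk V hV Pt.b (Pt.c 0) (le_b_c 0)) U hU (by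
      rintro h ⟨h1, h2⟩
      simp only [Set.mem_iInter] at h1
      have h3 : ∀ n x, le ((f n).1 x) (h.1 x) := fun n =>
        (top0_closure _ _).1 (h1 (f n) ⟨n, rfl⟩)
      have h4 : ∀ x, le ((mk V hV Pt.b (Pt.c 0) (le_b_c 0)).1 x) (h.1 x) := (top0_closure _ _).1 h2
      have h5 : le Pt.e (h.1 x₀) := by
        have := h3 0 x₀
        rwa [mk_notMem V hV _ _ _ x₀ hx₀] at this
      have h6 : le Pt.b (h.1 x₀) := by
        have := h4 x₀
        rwa [mk_notMem V hV _ _ _ x₀ hx₀] at this
      have h7 : ∀ n, le (Pt.c n) (h.1 x₁) := by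
        intro n
        have := h3 n x₁
        rwa [mk_mem V hV _ _ _ x₁ hx₁] at this
      have h8 : (∃ k, h.1 x₀ = Pt.a k) ∨ le (Pt.c 0) (h.1 x₀) := by
        generalize h.1 x₀ = p at h5 h6
        cases p with
        | a k => exact Or.inl ⟨k, rfl⟩
        | c k => exact Or.inr (Nat.zero_le k)
        | top => exact Or.inr (le_top' _)
        | e => exact absurd h6 (by simp [le])
        | b => exact absurd h5 (by simp [le])
      rcases h8 with ⟨k, hk⟩ | h8
      · refine Or.inr (Set.mem_iUnion.2 ⟨k, ?_, h7 k⟩)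
        show le (Pt.a k) (h.1 x₀)
        rw [hk]
        exact le_refl' _
      · exact Or.inl h8)
  have hmem : mk V hV (Pt.a (n + 1)) (Pt.c n) (le_a_c _ _) ∈ U :=
    hd ⟨mk_le_mk V hV _ _ _ _ _ _ (by simp [le]) (le_refl' _),
      mk_le_mk V hV _ _ _ _ _ _ (by simp [le]) (show 0 ≤ n from Nat.zero_le n)⟩
  rcases hmem with h | h
  · have h1 : le (Pt.c 0) ((mk V hV (Pt.a (n + 1)) (Pt.c n) (le_a_c _ _)).1 x₀) := h
    rw [mk_notMem V hV _ _ _ x₀ hx₀] at h1
    exact h1
  · obtain ⟨k, h1, h2⟩ := Set.mem_iUnion.1 h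
    have h3 : le (Pt.a k) ((mk V hV (Pt.a (n + 1)) (Pt.c n) (le_a_c _ _)).1 x₀) := h1
    have h4 : le (Pt.c k) ((mk V hV (Pt.a (n + 1)) (Pt.c n) (le_a_c _ _)).1 x₁) := h2
    rw [mk_notMem V hV _ _ _ x₀ hx₀] at h3
    rw [mk_mem V hV _ _ _ x₁ hx₁] at h4
    have h5 : k = n + 1 := h3
    have h6 : k ≤ n := h4
    omega

theorem strong_of_subsingleton [Subsingleton X] : IsStrongDSpace (Top0 X Pt) := by
  have := t0
  refine ⟨inferInstance, ?_⟩
  intro D hne hD x U hU hsub
  obtain ⟨d₀, hd₀⟩ := hne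
  rcases isEmpty_or_nonempty X with hX | ⟨⟨x₀⟩⟩
  · have hall : ∀ f g : Top0 X Pt, f = g := fun f g => Subtype.ext (funext fun i => hX.elim i)
    refine ⟨d₀, hd₀, fun y hy => hsub ⟨?_, hy.2⟩⟩
    simp only [Set.mem_iInter]
    intro d _
    rw [hall d d₀]
    exact hy.1
  · let cst : Pt → Top0 X Pt := fun p => ⟨fun _ => p, continuous_const⟩
    have hcst : Continuous cst := by
      refine Continuous.subtype_mk ?_ _
      exact continuous_pi fun _ => continuous_id
    have h1 : ∀ f : Top0 X Pt, f = cst (f.1 x₀) := fun f =>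
      Subtype.ext (funext fun i => by rw [Subsingleton.elim i x₀])
    have h2 : ∀ p f, f ∈ Up (cst p) ↔ le p (f.1 x₀) := by
      intro p f
      show cst p ∈ closure ({f} : Set (Top0 X Pt)) ↔ _
      rw [top0_closure]
      exact ⟨fun h => h x₀, fun h i => by rw [Subsingleton.elim i x₀]; exact h⟩
    obtain ⟨p, ⟨d, hd, rfl⟩, hp⟩ := strong.2 ((fun f : Top0 X Pt => f.1 x₀) '' D)
      ⟨_, d₀, hd₀, rfl⟩ (by
        rintro _ ⟨f, hf, rfl⟩ _ ⟨g, hg, rfl⟩
        obtain ⟨r, hr, h3, h4⟩ := hD f hf g hg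
        exact ⟨_, ⟨r, hr, rfl⟩, (mem_closure_iff_le _ _).2 ((top0_closure _ _).1 h3 x₀),
          (mem_closure_iff_le _ _).2 ((top0_closure _ _).1 h4 x₀)⟩) (x.1 x₀) (cst ⁻¹' U)
      (hU.preimage hcst) (by
        rintro y ⟨h3, h4⟩
        simp only [Set.mem_iInter] at h3
        apply hsub
        refine ⟨?_, ?_⟩
        · simp only [Set.mem_iInter]
          intro f hf
          rw [h1 f, h2]
          exact (mem_Up _ _).1 (h3 _ ⟨f, hf, rfl⟩)
        · rw [h1 x, h2]
          exact (mem_Up _ _).1 h4)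
    refine ⟨d, hd, fun y hy => ?_⟩
    rw [h1 y]
    apply hp
    refine ⟨?_, ?_⟩
    · have h5 := hy.1
      rw [h1 d, h2] at h5
      exact (mem_Up _ _).2 h5
    · have h5 := hy.2
      rw [h1 x, h2] at h5
      exact (mem_Up _ _).2 h5

end

/-- There is a (countable) strong d-space `Y` such that for every T0 space `X`, in any universe,
the space of continuous maps from `X` to `Y` with the topology of pointwise convergence is a
strong d-space if and only if `X` has at most one point. -/
theorem result :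
    ∃ (Y : Type) (_ : TopologicalSpace Y), Countable Y ∧ IsStrongDSpace Y ∧
      ∀ (X : Type u) [TopologicalSpace X] [T0Space X],
        IsStrongDSpace (Top0 X Y) ↔ Subsingleton X := by
  refine ⟨Pt, inferInstance, inferInstance, strong, fun X _ _ => ⟨fun h => ?_, fun h => ?_⟩⟩
  · by_contra hX
    have : Nontrivial X := not_subsingleton_iff_nontrivial.1 hX
    exact not_strong h
  · exact strong_of_subsingleton

end Pool.Agent.Results.MP_5f2357_gt.PowerFails
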